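import Mathlib
import Pool.Agent.H56.ParaFinal

/-!
# MP_b4eea7_an, Q1: disproof, with the sharp value 6/5

For every `ε > 0` there is a bounded measurable uniformly elliptic complex coefficient `a` on `ℝ²`
(one space dimension) with `p_-(∂_t - ∂_x a ∂_x) > 6/5 - ε`.

The coefficient is `a(x,t) = 1 / b(x/√t)` for `t > 0` and `a = 1` for `t ≤ 0`, where `b` comes from
a self-similar solution `t^g W(x/√t)`, `0 < g < 1/4`, with `W` decaying rapidly.
-/

set_option autoImplicit false

namespace Pool.Agent.Results.MP_b4eea7_an.LowerExponentSharp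

open Pool.Agent.H56.Para

theorem result : ∀ ε : ℝ, 0 < ε →
    ∃ (a : Plane → ℂ) (ν M : ℝ), IsElliptic a ν M ∧ 6 / 5 - ε < pMinus a :=
  exists_pMinus_gt

end Pool.Agent.Results.MP_b4eea7_an.LowerExponentSharp
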